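import Pool.Agent.Run7.h230.QF.Stm

/-!
# Project QF, piece COPY
-/

set_option autoImplicit false

namespace Pool.Agent.Run7.h510.QF

open Pool.Agent.Run7.h230.QF
open Pool.Agent.H97R3.VR (IsMedian IsConvex Btw)
open Pool.Agent.TH97.VR (walls)
open Pointwise

variable {V : Type} {k : ℕ} {Γ : SimpleGraph V}

theorem cut_smul {G : Type} [Group G] [MulAction G V] (g : G) (A : Set V)
    (f : (Fin k → ℤ) → V) : Cut (g • A) (fun z => g • f z) ↔ Cut A f := by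
  unfold Cut
  simp only [Set.smul_mem_smul_set_iff]

theorem cut_shift (c : Fin k → ℤ) (A : Set V) (f : (Fin k → ℤ) → V) :
    Cut A (fun z => f (z + c)) ↔ Cut A f := by
  unfold Cut
  constructor
  · rintro ⟨⟨z, hz⟩, ⟨w, hw⟩⟩
    exact ⟨⟨z + c, hz⟩, ⟨w + c, hw⟩⟩
  · rintro ⟨⟨z, hz⟩, ⟨w, hw⟩⟩
    exact ⟨⟨z - c, by simpa using hz⟩, ⟨w - c, by simpa using hw⟩⟩

theorem bdd_smul {G : Type} [Group G] [MulAction G V] (hA : Act G Γ) (g : G) (i : Fin k)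
    (f₁ f₂ : (Fin k → ℤ) → V) :
    Bdd Γ i (fun z => g • f₁ z) (fun z => g • f₂ z) ↔ Bdd Γ i f₁ f₂ := by
  unfold Bdd
  simp only [IsFlat.HS_smul hA, cut_smul]

theorem bdd_shift (hΓ : IsMedian Γ) (c : Fin k → ℤ) (i : Fin k)
    {f₁ f₂ : (Fin k → ℤ) → V} (hf : IsFlat Γ f₁) (h : Bdd Γ i f₁ f₂) :
    Bdd Γ i (fun z => f₁ (z + c)) (fun z => f₂ (z + c)) := by
  obtain ⟨s, hs⟩ := h
  refine ⟨s - c i, fun j hj => ?_⟩
  rw [hf.HS_shift hΓ, cut_shift]
  exact hs _ (by omega)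

theorem ng_shift (c : Fin k → ℤ) (f : (Fin k → ℤ) → V) :
    ng (fun z => f (z + c)) = fun z => ng f (z + (-c)) := by
  funext z
  show f (-z + c) = f (-(z + -c))
  congr 1
  abel

theorem bd_smul {G : Type} [Group G] [MulAction G V] (hA : Act G Γ) (g : G) (i : Fin k)
    (b : Bool) (f₁ f₂ : (Fin k → ℤ) → V) :
    Bd Γ i b (fun z => g • f₁ z) (fun z => g • f₂ z) ↔ Bd Γ i b f₁ f₂ := by
  cases b
  · exact bdd_smul hA g i (ng f₁) (ng f₂)
  · exact bdd_smul hA g i f₁ f₂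

theorem bd_shift (hΓ : IsMedian Γ) (c : Fin k → ℤ) (i : Fin k) (b : Bool)
    {f₁ f₂ : (Fin k → ℤ) → V} (hf : IsFlat Γ f₁) (h : Bd Γ i b f₁ f₂) :
    Bd Γ i b (fun z => f₁ (z + c)) (fun z => f₂ (z + c)) := by
  cases b
  · show Bdd Γ i (ng _) (ng _)
    rw [ng_shift, ng_shift]
    exact bdd_shift hΓ (-c) i hf.ng h
  · exact bdd_shift hΓ c i hf h

theorem Agree.ng' {f h : (Fin k → ℤ) → V} {R : ℕ} (H : Agree f h R) : Agree (ng f) (ng h) R := by
  intro z hz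
  exact H (-z) fun i => by simpa using hz i

theorem Agree.mono' {f h : (Fin k → ℤ) → V} {R S : ℕ} (H : Agree f h S) (hRS : R ≤ S) :
    Agree f h R := by
  intro z hz
  exact H z fun i => (hz i).trans (by exact_mod_cast hRS)

theorem open_bd (hO : S_OPEN) (hΓ : IsMedian Γ) {N : ℕ} (hG : ¬ Grid Γ (k + 1) N)
    {h₁ h₂ : (Fin k → ℤ) → V} (f₁ : IsFlat Γ h₁) (f₂ : IsFlat Γ h₂) (h0 : h₁ 0 = h₂ 0)
    (i : Fin k) (b : Bool) (hb : Bd Γ i b h₁ h₂) :
    ∃ S : ℕ, ∀ f, IsFlat Γ f → Agree f h₁ S → Bd Γ i b f h₂ := by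
  cases b
  · obtain ⟨S, hS⟩ := hO V Γ hΓ k N hG (ng h₁) (ng h₂) f₁.ng f₂.ng
      (by show h₁ (-0) = h₂ (-0); simpa using h0) i hb
    exact ⟨S, fun f hf hag => hS (ng f) hf.ng (Agree.ng' hag)⟩
  · exact hO V Γ hΓ k N hG h₁ h₂ f₁ f₂ h0 i hb

theorem tra_bd (hT : S_TRA) (hΓ : IsMedian Γ) {N : ℕ} (hG : ¬ Grid Γ (k + 1) N)
    {f₁ f₂ f₃ : (Fin k → ℤ) → V} (e₁ : IsFlat Γ f₁) (e₂ : IsFlat Γ f₂) (e₃ : IsFlat Γ f₃)
    (a₁ : Agree f₁ f₃ N) (a₂ : Agree f₂ f₃ N) (i : Fin k) (b : Bool)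
    (n₁ : ¬ Bd Γ i b f₁ f₃) (n₂ : ¬ Bd Γ i b f₂ f₃) : ¬ Bd Γ i b f₁ f₂ := by
  cases b
  · exact hT V Γ hΓ k N hG (ng f₁) (ng f₂) (ng f₃) e₁.ng e₂.ng e₃.ng (Agree.ng' a₁) (Agree.ng' a₂) i n₁ n₂
  · exact hT V Γ hΓ k N hG f₁ f₂ f₃ e₁ e₂ e₃ a₁ a₂ i n₁ n₂

theorem t_COPY (hR : S_REC) (hO : S_OPEN) (hT : S_TRA) : S_COPY := by
  classical
  intro V G _ _ Γ hA k N hG L hL hne hyp
  have key : ∀ D : Finset (Fin k × Bool), ∀ R : ℕ, ∃ f₁ ∈ L, ∃ f₂ ∈ L, Agree f₁ f₂ R ∧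
      ∀ p ∈ D, Bd Γ p.1 p.2 f₁ f₂ := by
    intro D
    induction D using Finset.induction_on with
    | empty =>
      intro R
      obtain ⟨f, hf⟩ := hne
      exact ⟨f, hf, f, hf, fun z _ => rfl, by simp⟩
    | insert q D hq ih =>
      intro R
      obtain ⟨h₁, m₁, h₂, m₂, hag, hbd⟩ := ih (max R N)
      have e₁ := hL.sys.flat _ m₁
      have e₂ := hL.sys.flat _ m₂
      have h0 : h₁ 0 = h₂ 0 := hag 0 (by simp)
      have hop : ∀ p : Fin k × Bool, ∃ S : ℕ, p ∈ D → ∀ f, IsFlat Γ f → Agree f h₁ S →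
          Bd Γ p.1 p.2 f h₂ := by
        intro p
        by_cases hp : p ∈ D
        · obtain ⟨S, hS⟩ := open_bd hO hA.med hG e₁ e₂ h0 p.1 p.2 (hbd p hp)
          exact ⟨S, fun _ => hS⟩
        · exact ⟨0, fun h => absurd h hp⟩
      choose T hT' using hop
      set S : ℕ := max (max R N) (D.sup T) with hS
      obtain ⟨ρ, hρ⟩ := hR V G Γ hA k L hL S
      obtain ⟨H₁, M₁, H₂, M₂, Hag, Hbd⟩ := hyp q.1 q.2 (ρ + S)
      obtain ⟨g, b, hb, hcopy⟩ := hρ H₁ M₁ h₁ m₁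
      have hcopy2 : Agree (fun z => H₂ (z + b)) (fun z => g • h₁ z) S := by
        intro z hz
        rw [← hcopy z hz]
        symm
        refine Hag (z + b) fun i => ?_
        have h1 := hz i
        have h2 := hb i
        calc |(z + b) i| ≤ |z i| + |b i| := abs_add_le _ _
          _ ≤ ((ρ + S : ℕ) : ℤ) := by push_cast; omega
      -- the common property of the two candidates
      have good : ∀ H ∈ L, Agree (fun z => H (z + b)) (fun z => g • h₁ z) S →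
          Agree (fun z => H (z + b)) (fun z => g • h₂ z) (max R N) ∧
          ∀ p ∈ D, Bd Γ p.1 p.2 (fun z => H (z + b)) (fun z => g • h₂ z) := by
        intro H HL HS
        refine ⟨fun z hz => ?_, fun p hp => ?_⟩
        · have h1 := Agree.mono' HS (le_max_left _ _) z hz
          exact h1.trans (congrArg (fun v => g • v) (hag z hz))
        · have h1 : Agree (fun z => g⁻¹ • H (z + b)) h₁ (T p) := by
            intro z hz
            have h2 := Agree.mono' HS ((Finset.le_sup (f := T) hp).trans (le_max_right _ _)) z hz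
            have h3 : H (z + b) = g • h₁ z := h2
            show g⁻¹ • H (z + b) = h₁ z
            rw [h3, inv_smul_smul]
          have h2 := hT' p hp (fun z => g⁻¹ • H (z + b))
            ((hL.sys.flat _ (hL.sys.smul _ (hL.sys.shift _ HL b) g⁻¹))) h1
          have h3 := (bd_smul hA g p.1 p.2 (fun z => g⁻¹ • H (z + b)) h₂).2 h2
          simpa only [smul_inv_smul] using h3
      obtain ⟨c₁, d₁⟩ := good H₁ M₁ hcopy
      obtain ⟨c₂, d₂⟩ := good H₂ M₂ hcopy2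
      have E₁ := hL.sys.flat _ (hL.sys.shift _ M₁ b)
      have E₂ := hL.sys.flat _ (hL.sys.shift _ M₂ b)
      have Mh := hL.sys.smul _ m₂ g
      have E₃ := hL.sys.flat _ Mh
      by_cases hc₁ : Bd Γ q.1 q.2 (fun z => H₁ (z + b)) (fun z => g • h₂ z)
      · refine ⟨_, hL.sys.shift _ M₁ b, _, Mh, Agree.mono' c₁ (le_max_left _ _), ?_⟩
        intro p hp
        rcases Finset.mem_insert.1 hp with rfl | hp
        · exact hc₁
        · exact d₁ p hp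
      · by_cases hc₂ : Bd Γ q.1 q.2 (fun z => H₂ (z + b)) (fun z => g • h₂ z)
        · refine ⟨_, hL.sys.shift _ M₂ b, _, Mh, Agree.mono' c₂ (le_max_left _ _), ?_⟩
          intro p hp
          rcases Finset.mem_insert.1 hp with rfl | hp
          · exact hc₂
          · exact d₂ p hp
        · exfalso
          refine tra_bd hT hA.med hG E₁ E₂ E₃ (Agree.mono' c₁ (le_max_right _ _))
            (Agree.mono' c₂ (le_max_right _ _)) q.1 q.2 hc₁ hc₂ ?_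
          exact bd_shift hA.med b q.1 q.2 (hL.sys.flat _ M₁) Hbd
  intro R
  obtain ⟨f₁, m₁, f₂, m₂, hag, hbd⟩ := key Finset.univ R
  exact ⟨f₁, m₁, f₂, m₂, hag, fun i b => hbd (i, b) (Finset.mem_univ _)⟩

end Pool.Agent.Run7.h510.QF
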